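import Pool.Agent.H442R3.PD.Hard

/-!
# Computing the partition dimension of trees is NP-hard

PD-TREES: given a tree and a positive integer `k`, is the partition dimension of the tree at most
`k`?

The reduction is from 3-colourability of graphs.  Let `N` be (an upper bound for) the number of
vertices, `B = 2 N + 3` and `k = B + 1`.  The tree has hubs with `k` leaves (a root and `B` children
of the root) and hubs with `B = k - 1` leaves.  The leaves of a hub lie in different classes, so
that the first ones have distance at most `1` from all classes and the second ones from all classes
but one.  There are `k` hubs of the first kind and `B + B^2` hubs of the second kind which are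
adjacent to a hub of the first kind; these `k^2` vertices exhaust all the vectors with one zero, at
most one entry `2`, and all other entries `1`.  The last `B^2` hubs are the first hubs of `B^2`
items.  The further hubs of an item (all with `B` leaves; the hubs at depth `d + 1` are children of
one hub at depth `d`) are forced to miss the same class as the first one, so that an item is in one
of `B` bins.  The hubs at the same depth `d` of the items in one bin have distance `d + 2` from the
same class and distance at most one from the other classes, so that there are at most `B` of them:
every depth is a packing of numbers into `B` bins of capacity `B`.  The first depth has `B - 3` items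
with `B` hubs and one item with one hub for each vertex of the graph, so that the vertices are in
three bins; there is one depth for each edge, with `N + 2` hubs for each of its ends, so that
adjacent vertices are in different bins.
-/

namespace Pool.Agent.Results.MP_2fd452_lc.PDTreesNPHard

open Pool.Agent.NPC Pool.Agent.H442R3.PD

/-- **PD-TREES is NP-hard**: for every language `L` in `NP` there is a polynomial-time many-one
reduction of `L` to PD-TREES, all of whose instances consist of (the adjacency matrix of) a tree and
a positive integer.  Hence `P = NP` if PD-TREES is in `P`. -/
theorem result :
    (∀ L : Set (List Bool), InNP L → ∃ f : List Bool → List (List Bool) × ℕ,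
      PolyTime (fun x => bits (f x)) ∧ (∀ x, TreeInst (f x)) ∧ ∀ x, x ∈ L ↔ PDTrees (f x)) ∧
    (InPP PDTrees → ∀ L : Set (List Bool), InNP L → InP L) :=
  ⟨hardOn_PD, fun h => NPHard.collapse hardOn_PD.toNPHardP h⟩

end Pool.Agent.Results.MP_2fd452_lc.PDTreesNPHard
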